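import Pool.Agent.H494.DZ.Num

/-!
# The numerical conditions for large `ν`, uniformly in the height
-/

set_option autoImplicit false

open Polynomial Pool.Agent.H337R2 Pool.Agent.W165.OZ Pool.Agent.Y926.LZ Pool.Agent.Y926.TW Pool.Agent.N797.PW Filter

namespace Pool.Agent.H494.DQ

open Pool.Agent.H494.DZ

noncomputable section

/-- **NUM** for the pigeonhole principle, uniformly in the height `2^(y n)` -/
theorem qnum {h R B w γ A M C0 W x y J1 J2 : ℕ} (hh : 1 ≤ h) (hM : 1 ≤ M)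
    (hJ1 : 2 * h ≤ 2 ^ J1 * w) (hJ2 : 2 * h ≤ 2 ^ J2 * γ)
    (hK : (w + 1) * (5 * w + 8 * J1 * (w + 1) + 5) +
      A * M * ((γ + 1) * (5 * γ + 8 * J2 * (γ + 1) + 5 + y)) +
      2 ^ R * B * (x + W + 1) + 4 * B * (2 * h + B) ≤ x * (M * γ)) :
    ∀ᶠ ν in atTop, DgNum h ν (2 ^ R) B w γ A M (C0 * 2 ^ (y * (2 * ν + 1))) W
      (2 ^ (x * (2 * ν + 1))) := by
  have hG1 := t_gcd (2 * h) (2 * w + 2) w J1 hJ1
  have hG2 := t_gcd (2 * h) (2 * γ + 2) γ J2 hJ2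
  filter_upwards [tend_odd.eventually num_Dl_le, tend_odd.eventually hG1, tend_odd.eventually hG2,
    tend_odd.eventually (num_lin 2), tend_odd.eventually (num_lin (2 * C0)),
    tend_odd.eventually (num_lin (8 * h * 2 ^ (2 * h + B)))] with ν e1 e2 e3 e4 e5 e6
  unfold DgNum
  obtain ⟨n, hn⟩ : ∃ n, n = 2 * ν + 1 := ⟨_, rfl⟩
  rw [← hn] at e1 e2 e3 e4 e5 e6 ⊢
  have hn1 : 1 ≤ n := by omega
  have e2' : DW n (2 * h) (2 * w + 2) ≤ 2 ^ ((2 * w + 4 * J1 * (2 * w + 2) + 1) * n) := by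
    exact_mod_cast e2
  have e3' : DW n (2 * h) (2 * γ + 2) ≤ 2 ^ ((2 * γ + 4 * J2 * (2 * γ + 2) + 1) * n) := by
    exact_mod_cast e3
  have f1 : 2 * (n * (DW n (2 * h) (2 * w + 2) * 8 ^ ((w + 1) * n))) ≤
      2 ^ ((5 * w + 8 * J1 * (w + 1) + 5) * n) := by
    calc 2 * (n * (DW n (2 * h) (2 * w + 2) * 8 ^ ((w + 1) * n)))
        ≤ 2 * (n * (2 ^ ((2 * w + 4 * J1 * (2 * w + 2) + 1) * n) * 8 ^ ((w + 1) * n))) := by gcongr
      _ = (2 * n) * 2 ^ ((2 * w + 4 * J1 * (2 * w + 2) + 1) * n + 3 * ((w + 1) * n)) := by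
          rw [show (8 : ℕ) = 2 ^ 3 by norm_num, ← pow_mul, pow_add]
          ring
      _ ≤ 2 ^ n * 2 ^ ((2 * w + 4 * J1 * (2 * w + 2) + 1) * n + 3 * ((w + 1) * n)) :=
          Nat.mul_le_mul_right _ e4
      _ = _ := by
          rw [← pow_add]
          congr 1
          ring
  have f2 : 2 * (n * (C0 * 2 ^ (y * n) * DW n (2 * h) (2 * γ + 2) * 8 ^ ((γ + 1) * n))) ≤
      2 ^ ((5 * γ + 8 * J2 * (γ + 1) + 5 + y) * n) := by
    calc 2 * (n * (C0 * 2 ^ (y * n) * DW n (2 * h) (2 * γ + 2) * 8 ^ ((γ + 1) * n)))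
        ≤ 2 * (n * (C0 * 2 ^ (y * n) * 2 ^ ((2 * γ + 4 * J2 * (2 * γ + 2) + 1) * n) *
            8 ^ ((γ + 1) * n))) := by gcongr
      _ = (2 * C0 * n) * 2 ^ (y * n + (2 * γ + 4 * J2 * (2 * γ + 2) + 1) * n +
            3 * ((γ + 1) * n)) := by
          rw [show (8 : ℕ) = 2 ^ 3 by norm_num, ← pow_mul, pow_add, pow_add]
          ring
      _ ≤ 2 ^ n * 2 ^ (y * n + (2 * γ + 4 * J2 * (2 * γ + 2) + 1) * n + 3 * ((γ + 1) * n)) :=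
          Nat.mul_le_mul_right _ e5
      _ = _ := by
          rw [← pow_add]
          congr 1
          ring
  have f3 : 2 ^ (x * n) * (2 ^ (W * n) * (2 * (n * (2 * h * 2 ^ (2 * h + B))))) + 1 ≤
      2 ^ ((x + W + 1) * n) := by
    have h1 := num_add_one (le_refl (2 ^ (x * n) * (2 ^ (W * n) * (2 * (n * (2 * h * 2 ^ (2 * h + B)))))))
      (Nat.one_le_iff_ne_zero.2 (by positivity))
    refine h1.trans ?_
    calc 2 * (2 ^ (x * n) * (2 ^ (W * n) * (2 * (n * (2 * h * 2 ^ (2 * h + B))))))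
        = (8 * h * 2 ^ (2 * h + B) * n) * 2 ^ (x * n + W * n) := by
          rw [pow_add 2 (x * n) (W * n)]
          ring
      _ ≤ 2 ^ n * 2 ^ (x * n + W * n) := Nat.mul_le_mul_right _ e6
      _ = _ := by
          rw [← pow_add]
          congr 1
          ring
  have g1 : (2 * (n * (DW n (2 * h) (2 * w + 2) * 8 ^ ((w + 1) * n)))) ^ (w * n + 1) ≤
      2 ^ ((w + 1) * (5 * w + 8 * J1 * (w + 1) + 5) * (n * n)) := by
    calc _ ≤ (2 ^ ((5 * w + 8 * J1 * (w + 1) + 5) * n)) ^ (w * n + 1) := Nat.pow_le_pow_left f1 _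
      _ ≤ (2 ^ ((5 * w + 8 * J1 * (w + 1) + 5) * n)) ^ ((w + 1) * n) :=
          Nat.pow_le_pow_right (by positivity) (by nlinarith)
      _ = _ := by
          rw [← pow_mul]
          congr 1
          ring
  have g2 : (2 * (n * (C0 * 2 ^ (y * n) * DW n (2 * h) (2 * γ + 2) * 8 ^ ((γ + 1) * n)))) ^
      (A * (M * (γ * n + 1))) ≤
      2 ^ (A * M * ((γ + 1) * (5 * γ + 8 * J2 * (γ + 1) + 5 + y)) * (n * n)) := by
    calc _ ≤ (2 ^ ((5 * γ + 8 * J2 * (γ + 1) + 5 + y) * n)) ^ (A * (M * (γ * n + 1))) :=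
          Nat.pow_le_pow_left f2 _
      _ ≤ (2 ^ ((5 * γ + 8 * J2 * (γ + 1) + 5 + y) * n)) ^ (A * (M * ((γ + 1) * n))) :=
          Nat.pow_le_pow_right (by positivity)
            (Nat.mul_le_mul_left _ (Nat.mul_le_mul_left _ (by nlinarith)))
      _ = _ := by
          rw [← pow_mul]
          congr 1
          ring
  have g3 : (2 ^ (x * n) * (2 ^ (W * n) * (2 * (n * (2 * h * 2 ^ (2 * h + B))))) + 1) ^
      (2 ^ R * n * B) ≤ 2 ^ (2 ^ R * B * (x + W + 1) * (n * n)) := by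
    calc _ ≤ (2 ^ ((x + W + 1) * n)) ^ (2 ^ R * n * B) := Nat.pow_le_pow_left f3 _
      _ = _ := by
          rw [← pow_mul]
          congr 1
          ring
  have g4 : (Dl n 1 ^ (2 * h + B)) ^ (n * B) ≤ 2 ^ (4 * B * (2 * h + B) * (n * n)) := by
    calc _ ≤ ((2 ^ (4 * n)) ^ (2 * h + B)) ^ (n * B) :=
          Nat.pow_le_pow_left (Nat.pow_le_pow_left e1 _) _
      _ = _ := by
          rw [← pow_mul, ← pow_mul]
          congr 1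
          ring
  have h1 := Nat.mul_le_mul (Nat.mul_le_mul (Nat.mul_le_mul g1 g2) g3) g4
  rw [← pow_add, ← pow_add, ← pow_add, ← add_mul, ← add_mul, ← add_mul] at h1
  refine lt_of_le_of_lt h1 ?_
  have h2 := Nat.mul_le_mul_right (n * n) hK
  have hM' : 0 < M * (γ * n + 1) := Nat.mul_pos (by omega) (by omega)
  calc 2 ^ (((w + 1) * (5 * w + 8 * J1 * (w + 1) + 5) +
        A * M * ((γ + 1) * (5 * γ + 8 * J2 * (γ + 1) + 5 + y)) +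
        2 ^ R * B * (x + W + 1) + 4 * B * (2 * h + B)) * (n * n))
      ≤ 2 ^ (x * n * (M * (γ * n + 1))) := by
        refine Nat.pow_le_pow_right (by norm_num) (h2.trans ?_)
        calc x * (M * γ) * (n * n) = x * n * (M * (γ * n)) := by ring
          _ ≤ x * n * (M * (γ * n + 1)) :=
            Nat.mul_le_mul_left _ (Nat.mul_le_mul_left _ (Nat.le_succ _))
    _ = (2 ^ (x * n)) ^ (M * (γ * n + 1)) := by rw [← pow_mul]
    _ < (2 ^ (x * n) + 1) ^ (M * (γ * n + 1)) :=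
        Nat.pow_lt_pow_left (Nat.lt_succ_self _) hM'.ne'

/-- the forms multiplied by the denominators are less than one -/
theorem qtiny {h R B w γ W x y E J2 : ℕ} (hh : 1 ≤ h) (hR : 1 ≤ R)
    (hJ2 : 2 * h + 2 * B ≤ 2 ^ J2 * γ)
    (hsm : x + (2 * γ + 4 * J2 * (2 * γ + 2) + 1) + y + 3 * (γ + 1) + 1 ≤ 2 * (w - γ) * (R - 1))
    (hW : (2 * γ + 4 * J2 * (2 * γ + 2) + 1) + y + (γ + 1) * (2 * R + 6) + 1 ≤ W)
    (hE : x + (2 * γ + 4 * J2 * (2 * γ + 2) + 1) + y + 3 * (γ + 1) + 1 ≤ E) :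
    ∀ᶠ ν in atTop, ∀ q0 : ℕ, q0 ≤ 2 ^ (y * (2 * ν + 1)) → ∀ β < B, ∀ l ≤ γ * (2 * ν + 1),
      (q0 : ℝ) * (DW (2 * ν + 1) (2 * h + 2 * B) (2 * γ + 2) : ℝ) *
      (2 * (((2 ^ (x * (2 * ν + 1)) : ℕ) : ℝ) * (2 * (ν : ℝ) + 1) * 8 ^ (l + (2 * ν + 1)) *
        (2 ^ (β + 1) * ((2 ^ R : ℕ) : ℝ) ^ 2 *
        (2 / ((2 ^ R : ℕ) : ℝ)) ^ (2 * (w * (2 * ν + 1)) + 2 - 2 * l) * (2 * (ν : ℝ) + 1) ^ 2) +
        (54 * ((2 ^ R : ℕ) : ℝ) ^ 2) ^ (l + (2 * ν + 1)) / 2 ^ (W * (2 * ν + 1)) *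
          (((2 ^ R : ℕ) : ℝ) * (2 * (ν : ℝ) + 1)) ^ 2) +
       2 * h * (2 ^ (2 * h + β) * (((2 ^ (x * (2 * ν + 1)) : ℕ) : ℝ) * (2 * (ν : ℝ) + 1) *
         8 ^ (l + (2 * ν + 1)))) * (1 / 2 ^ (E * (2 * ν + 1)))) < 1 := by
  have hG := t_gcd (2 * h + 2 * B) (2 * γ + 2) γ J2 hJ2
  filter_upwards [tend_odd.eventually hG,
    tend_odd.eventually (cube_le (8 * (2 ^ (B + 1) * 4 ^ R))),
    tend_odd.eventually (num_lin (8 * h * 2 ^ (2 * h + B)))] with ν e1 e2 e6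
  intro q0 hq0' β hβ l hl
  obtain ⟨n, hn⟩ : ∃ n, n = 2 * ν + 1 := ⟨_, rfl⟩
  have hnn : (2 * (ν : ℝ) + 1) = (n : ℝ) := by rw [hn]; push_cast; ring
  rw [hnn]
  rw [← hn] at e1 e2 e6 hl hq0' ⊢
  have hn1 : 1 ≤ n := by omega
  have hn1' : (1 : ℝ) ≤ n := by exact_mod_cast hn1
  obtain ⟨Δ, hΔ⟩ : ∃ Δ, Δ = 2 * γ + 4 * J2 * (2 * γ + 2) + 1 := ⟨_, rfl⟩
  rw [← hΔ] at e1 hsm hW hE
  obtain ⟨R', rfl⟩ : ∃ R', R = R' + 1 := ⟨R - 1, by omega⟩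
  rw [Nat.add_sub_cancel] at hsm
  have hq0 : (0 : ℝ) ≤ q0 := by positivity
  have hqy : (q0 : ℝ) ≤ 2 ^ (y * n) := by exact_mod_cast hq0'
  have hD0 : (0 : ℝ) ≤ (DW n (2 * h + 2 * B) (2 * γ + 2) : ℝ) := by positivity
  have e2' : 8 * (2 ^ (B + 1) * 4 ^ (R' + 1)) * (n : ℝ) ^ 3 ≤ 2 ^ n := by exact_mod_cast e2
  have e6' : 8 * (h : ℝ) * 2 ^ (2 * h + B) * (n : ℝ) ≤ 2 ^ n := by exact_mod_cast e6
  push_cast
  -- the first term
  have f1 : (2 / (2 : ℝ) ^ (R' + 1)) = (1 / 2) ^ R' := by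
    rw [pow_succ, one_div, inv_pow]
    field_simp
  rw [f1]
  have f2 : ((1 / 2 : ℝ) ^ R') ^ (2 * (w * n) + 2 - 2 * l) ≤ (1 / 2) ^ (2 * (w - γ) * R' * n) := by
    rw [← pow_mul]
    refine pow_le_pow_of_le_one (by norm_num) (by norm_num) ?_
    have h1 : 2 * (w - γ) * n ≤ 2 * (w * n) + 2 - 2 * l := by
      have h2 : (w - γ) * n = w * n - γ * n := Nat.sub_mul _ _ _
      have h3 : 2 * (w - γ) * n = 2 * ((w - γ) * n) := by ring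
      omega
    calc 2 * (w - γ) * R' * n = R' * (2 * (w - γ) * n) := by ring
      _ ≤ _ := Nat.mul_le_mul_left _ h1
  have f3 : (8 : ℝ) ^ (l + n) ≤ 2 ^ (3 * (γ + 1) * n) := by
    rw [show (8 : ℝ) = 2 ^ 3 by norm_num, ← pow_mul]
    refine pow_le_pow_right₀ (by norm_num) ?_
    have : 3 * (γ + 1) * n = 3 * (γ * n) + 3 * n := by ring
    omega
  have f4 : (2 : ℝ) ^ (β + 1) ≤ 2 ^ (B + 1) := pow_le_pow_right₀ (by norm_num) (by omega)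
  have f4' : (2 : ℝ) ^ (2 * h + β) ≤ 2 ^ (2 * h + B) := pow_le_pow_right₀ (by norm_num) (by omega)
  have f5 : ((2 : ℝ) ^ (R' + 1)) ^ 2 = 4 ^ (R' + 1) := by
    rw [← pow_mul, mul_comm, pow_mul]
    norm_num
  have t1 : (q0 : ℝ) * (DW n (2 * h + 2 * B) (2 * γ + 2) : ℝ) *
      (2 * (2 ^ (x * n) * (n : ℝ) * 8 ^ (l + n) * (2 ^ (β + 1) * (2 ^ (R' + 1)) ^ 2 *
        ((1 / 2 : ℝ) ^ R') ^ (2 * (w * n) + 2 - 2 * l) * (n : ℝ) ^ 2))) ≤ 1 / 4 := by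
    rw [f5]
    calc (q0 : ℝ) * (DW n (2 * h + 2 * B) (2 * γ + 2) : ℝ) *
      (2 * (2 ^ (x * n) * (n : ℝ) * 8 ^ (l + n) * (2 ^ (β + 1) * 4 ^ (R' + 1) *
        ((1 / 2 : ℝ) ^ R') ^ (2 * (w * n) + 2 - 2 * l) * (n : ℝ) ^ 2)))
        ≤ 2 ^ (y * n) * 2 ^ (Δ * n) * (2 * (2 ^ (x * n) * (n : ℝ) * 2 ^ (3 * (γ + 1) * n) *
          (2 ^ (B + 1) * 4 ^ (R' + 1) * (1 / 2) ^ (2 * (w - γ) * R' * n) * (n : ℝ) ^ 2))) := by gcongr
      _ = (8 * (2 ^ (B + 1) * 4 ^ (R' + 1)) * (n : ℝ) ^ 3) *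
          (2 ^ (y * n + Δ * n + x * n + 3 * (γ + 1) * n) * (1 / 2) ^ (2 * (w - γ) * R' * n)) / 4 := by
          rw [pow_add 2 (y * n + Δ * n + x * n), pow_add 2 (y * n + Δ * n), pow_add 2 (y * n)]
          ring
      _ ≤ 2 ^ n * (2 ^ (y * n + Δ * n + x * n + 3 * (γ + 1) * n) *
          (1 / 2) ^ (2 * (w - γ) * R' * n)) / 4 := by
          gcongr
      _ = (2 ^ ((x + Δ + y + 3 * (γ + 1) + 1) * n) * (1 / 2) ^ (2 * (w - γ) * R' * n)) / 4 := by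
          rw [← mul_assoc, ← pow_add]
          congr 3
          ring
      _ ≤ (2 ^ (2 * (w - γ) * R' * n) * (1 / 2) ^ (2 * (w - γ) * R' * n)) / 4 := by
          gcongr
          · norm_num
      _ = 1 / 4 := by
          rw [← mul_pow]
          norm_num
  -- the second term
  have g1 : (54 * ((2 : ℝ) ^ (R' + 1)) ^ 2) ^ (l + n) ≤ 2 ^ ((γ + 1) * (2 * (R' + 1) + 6) * n) := by
    have h1 : 54 * ((2 : ℝ) ^ (R' + 1)) ^ 2 ≤ 2 ^ (2 * (R' + 1) + 6) := by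
      rw [pow_add 2 (2 * (R' + 1)) 6, ← pow_mul, mul_comm (R' + 1) 2]
      have : (0 : ℝ) < 2 ^ (2 * (R' + 1)) := by positivity
      linarith
    calc (54 * ((2 : ℝ) ^ (R' + 1)) ^ 2) ^ (l + n) ≤ (2 ^ (2 * (R' + 1) + 6)) ^ (l + n) :=
          pow_le_pow_left₀ (by positivity) h1 _
      _ = 2 ^ ((2 * (R' + 1) + 6) * (l + n)) := by rw [← pow_mul]
      _ ≤ _ := by
          refine pow_le_pow_right₀ (by norm_num) ?_
          calc (2 * (R' + 1) + 6) * (l + n) ≤ (2 * (R' + 1) + 6) * (γ * n + n) :=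
                Nat.mul_le_mul_left _ (by omega)
            _ = _ := by ring
  have t2 : (q0 : ℝ) * (DW n (2 * h + 2 * B) (2 * γ + 2) : ℝ) *
      (2 * ((54 * ((2 : ℝ) ^ (R' + 1)) ^ 2) ^ (l + n) / 2 ^ (W * n) *
        (2 ^ (R' + 1) * (n : ℝ)) ^ 2)) ≤ 1 / 4 := by
    have h0 : (1 : ℝ) ≤ 2 ^ (B + 1) := one_le_pow₀ (by norm_num)
    calc (q0 : ℝ) * (DW n (2 * h + 2 * B) (2 * γ + 2) : ℝ) *
      (2 * ((54 * ((2 : ℝ) ^ (R' + 1)) ^ 2) ^ (l + n) / 2 ^ (W * n) *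
        (2 ^ (R' + 1) * (n : ℝ)) ^ 2))
        ≤ 2 ^ (y * n) * 2 ^ (Δ * n) * (2 * (2 ^ ((γ + 1) * (2 * (R' + 1) + 6) * n) / 2 ^ (W * n) *
          (2 ^ (R' + 1) * (n : ℝ)) ^ 2)) := by gcongr
      _ = (8 * (1 * 4 ^ (R' + 1)) * ((n : ℝ) ^ 2 * 1)) *
          (2 ^ (y * n + Δ * n + (γ + 1) * (2 * (R' + 1) + 6) * n) / 2 ^ (W * n)) / 4 := by
          rw [mul_pow, f5, pow_add 2 (y * n + Δ * n), pow_add 2 (y * n)]
          ring
      _ ≤ (8 * (2 ^ (B + 1) * 4 ^ (R' + 1)) * ((n : ℝ) ^ 2 * n)) *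
          (2 ^ (y * n + Δ * n + (γ + 1) * (2 * (R' + 1) + 6) * n) / 2 ^ (W * n)) / 4 := by
          gcongr
      _ = (8 * (2 ^ (B + 1) * 4 ^ (R' + 1)) * (n : ℝ) ^ 3) *
          (2 ^ (y * n + Δ * n + (γ + 1) * (2 * (R' + 1) + 6) * n) / 2 ^ (W * n)) / 4 := by ring
      _ ≤ 2 ^ n * (2 ^ (y * n + Δ * n + (γ + 1) * (2 * (R' + 1) + 6) * n) / 2 ^ (W * n)) / 4 := by
          gcongr
      _ = (2 ^ ((Δ + y + (γ + 1) * (2 * (R' + 1) + 6) + 1) * n) / 2 ^ (W * n)) / 4 := by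
          rw [← mul_div_assoc, ← pow_add]
          congr 3
          ring
      _ ≤ (2 ^ (W * n) / 2 ^ (W * n)) / 4 := by
          gcongr
          · norm_num
      _ = 1 / 4 := by
          rw [div_self (by positivity)]
  -- the third term
  have t3 : (q0 : ℝ) * (DW n (2 * h + 2 * B) (2 * γ + 2) : ℝ) *
      (2 * h * (2 ^ (2 * h + β) * (2 ^ (x * n) * (n : ℝ) * 8 ^ (l + n))) * (1 / 2 ^ (E * n))) ≤
      1 / 4 := by
    calc (q0 : ℝ) * (DW n (2 * h + 2 * B) (2 * γ + 2) : ℝ) *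
      (2 * h * (2 ^ (2 * h + β) * (2 ^ (x * n) * (n : ℝ) * 8 ^ (l + n))) * (1 / 2 ^ (E * n)))
        ≤ 2 ^ (y * n) * 2 ^ (Δ * n) * (2 * h * (2 ^ (2 * h + B) * (2 ^ (x * n) * (n : ℝ) *
          2 ^ (3 * (γ + 1) * n))) * (1 / 2 ^ (E * n))) := by gcongr
      _ = (8 * (h : ℝ) * 2 ^ (2 * h + B) * n) *
          (2 ^ (y * n + Δ * n + x * n + 3 * (γ + 1) * n) / 2 ^ (E * n)) / 4 := by
          rw [pow_add 2 (y * n + Δ * n + x * n), pow_add 2 (y * n + Δ * n), pow_add 2 (y * n)]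
          ring
      _ ≤ 2 ^ n * (2 ^ (y * n + Δ * n + x * n + 3 * (γ + 1) * n) / 2 ^ (E * n)) / 4 := by
          gcongr
      _ = (2 ^ ((x + Δ + y + 3 * (γ + 1) + 1) * n) / 2 ^ (E * n)) / 4 := by
          rw [← mul_div_assoc, ← pow_add]
          congr 3
          ring
      _ ≤ (2 ^ (E * n) / 2 ^ (E * n)) / 4 := by
          gcongr
          · norm_num
      _ = 1 / 4 := by
          rw [div_self (by positivity)]
  rw [mul_add, mul_add, mul_add]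
  linarith

end

end Pool.Agent.H494.DQ
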