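import Pool.Graph.R_pool_sql_team_seeded_63374d34.N797.PW.J_DIF
import Pool.Agent.H494.DQ.QNum
import Pool.Agent.H494.DZ.Core

/-!
# The quantitative core
-/

set_option autoImplicit false

open Polynomial Pool.Agent.H337R2 Pool.Agent.W165.OZ Pool.Agent.Y926.LZ Pool.Agent.Y926.TW Pool.Agent.N797.PW Filter

namespace Pool.Agent.H494.DQ

open Pool.Agent.H494.DZ

noncomputable section

/-- the difference between the real form and the combination of the rational forms -/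
theorem LR_diff {h ν b l A H : ℕ} {c : ℕ → ℕ → ℤ} {δ : ℝ} (hA : AS h (2 * ν + 1) c) (hβ : Even b)
    (hδ : 0 ≤ δ) (hc : ∀ i k, |c i k| ≤ (H : ℤ))
    (θ : Fin A → ℝ) (z0 : ℕ → ℚ) (za : Fin A → ℕ → ℚ)
    (hz : ∀ j, Odd j → b < j → j ≤ 2 * h + b → |zr j - (z0 j + ∑ a, θ a * za a j)| ≤ δ) :
    |LR h (2 * ν + 1) c (gq (2 * ν + 1) l) b -
      ((Lz z0 h (2 * ν + 1) c (gq (2 * ν + 1) l) b : ℝ) +
        ∑ a, θ a * (Hom (za a) h (2 * ν + 1) c (gq (2 * ν + 1) l) b : ℝ))| ≤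
    2 * h * (2 ^ (2 * h + b) * (H * (2 * (ν : ℝ) + 1) * 8 ^ (l + (2 * ν + 1)))) * δ := by
  set n := 2 * ν + 1 with hn
  have hn1 : 1 ≤ n := by omega
  set K : ℝ := 2 ^ (2 * h + b) * (H * (2 * (ν : ℝ) + 1) * 8 ^ (l + n)) with hK
  have hK0 : 0 ≤ K := by positivity
  have e1 : LR h n c (gq n l) b - ((Lz z0 h n c (gq n l) b : ℝ) +
        ∑ a, θ a * (Hom (za a) h n c (gq n l) b : ℝ)) =
      ∑ i ∈ Finset.Icc 1 (2 * h), ((Cb b i * rh h n c (gq n l) i : ℚ) : ℝ) *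
        (zr (i + b) - (z0 (i + b) + ∑ a, θ a * za a (i + b))) := by
    unfold LR Lz Hom
    push_cast
    simp only [Finset.mul_sum]
    rw [Finset.sum_comm (s := (Finset.univ : Finset (Fin A)))]
    rw [sub_add_eq_add_sub, ← Finset.sum_add_distrib, sub_sub_sub_cancel_right,
      ← Finset.sum_sub_distrib]
    refine Finset.sum_congr rfl fun i _ => ?_
    rw [mul_sub, mul_add, Finset.mul_sum]
    congr 2
    exact Finset.sum_congr rfl fun a _ => by ring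
  rw [e1]
  refine (Finset.abs_sum_le_sum_abs _ _).trans ?_
  have h2 : ∀ i ∈ Finset.Icc 1 (2 * h), |((Cb b i * rh h n c (gq n l) i : ℚ) : ℝ) *
      (zr (i + b) - (z0 (i + b) + ∑ a, θ a * za a (i + b)))| ≤ K * δ := by
    intro i hi
    rw [Finset.mem_Icc] at hi
    rcases Nat.even_or_odd i with he | ho
    · rw [INT.rh_even hA he hi.1, mul_zero, Rat.cast_zero, zero_mul, abs_zero]
      positivity
    · rw [abs_mul]
      have h3 := hz (i + b) (ho.add_even hβ) (by omega) (by omega)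
      have h4 : |((Cb b i * rh h n c (gq n l) i : ℚ) : ℝ)| ≤ K := by
        have h5 := DIFF.Cb_le (β := b) hi.1 hi.2
        have h6 := DIFF.rh_le t_jb (h := h) (l := l) (i := i) hn1 hc hi.1
        have h7 : |Cb b i * rh h n c (gq n l) i| ≤ 2 ^ (2 * h + b) * (H * n * 8 ^ (l + n)) := by
          rw [abs_mul]
          exact mul_le_mul h5 h6 (abs_nonneg _) (by positivity)
        have h8 : ((|Cb b i * rh h n c (gq n l) i| : ℚ) : ℝ) ≤
            ((2 ^ (2 * h + b) * (H * n * 8 ^ (l + n)) : ℚ) : ℝ) := by exact_mod_cast h7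
        rw [← Rat.cast_abs]
        refine h8.trans (le_of_eq ?_)
        rw [hK, hn]
        push_cast
        ring
      exact mul_le_mul h4 h3 (abs_nonneg _) hK0
  refine (Finset.sum_le_sum h2).trans (le_of_eq ?_)
  rw [Finset.sum_const, Nat.card_Icc, nsmul_eq_mul]
  push_cast
  ring

/-- **The quantitative core.** -/
theorem qcore {A M b γ w h R x W y E J1 J2 : ℕ} (hb : Even b) (hb2 : 2 ≤ b) (hh : 1 ≤ h)
    (hM : 1 ≤ M) (hR : 2 ≤ R) (hγw : γ ≤ w) (hJ1 : 2 * h ≤ 2 ^ J1 * w)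
    (hJ2 : 2 * h + 2 * (b + 2 * M) ≤ 2 ^ J2 * γ)
    (hK : (w + 1) * (5 * w + 8 * J1 * (w + 1) + 5) +
      A * M * ((γ + 1) * (5 * γ + 8 * J2 * (γ + 1) + 5 + y)) +
      2 ^ R * (b + 2 * M) * (x + W + 1) + 4 * (b + 2 * M) * (2 * h + (b + 2 * M)) ≤ x * (M * γ))
    (hsm : x + (2 * γ + 4 * J2 * (2 * γ + 2) + 1) + y + 3 * (γ + 1) + 1 ≤ 2 * (w - γ) * (R - 1))
    (hW : (2 * γ + 4 * J2 * (2 * γ + 2) + 1) + y + (γ + 1) * (2 * R + 6) + 1 ≤ W)
    (hE : x + (2 * γ + 4 * J2 * (2 * γ + 2) + 1) + y + 3 * (γ + 1) + 1 ≤ E)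
    (hze : 2 * (γ * ((A + 1) * M)) + 2 * w < h) :
    ∃ ν0 : ℕ, ∀ ν ≥ ν0, ∀ (q : ℕ) (θ : Fin A → ℝ) (z0 : ℕ → ℚ) (za : Fin A → ℕ → ℚ), 1 ≤ q →
      q ≤ 2 ^ (y * (2 * ν + 1)) →
      (∀ j, b < j → j ≤ 2 * h + (b + 2 * M) → ∃ m : ℤ, (q : ℚ) * z0 j = m) →
      (∀ a j, b < j → j ≤ 2 * h + (b + 2 * M) →
        ∃ m : ℤ, (q : ℚ) * za a j = m ∧ |m| ≤ 2 ^ (y * (2 * ν + 1))) →
      ∃ j, Odd j ∧ b < j ∧ j ≤ 2 * h + (b + 2 * M) ∧
        1 / 2 ^ (E * (2 * ν + 1)) < |zr j - (z0 j + ∑ a, θ a * za a j)| := by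
  have hev := (((qnum (h := h) (R := R) (B := b + 2 * M) (C0 := 2 * h * 2 ^ (2 * h + (b + 2 * M)))
      hh hM hJ1 (by omega) hK).and
    (dzero (A := A) (M := M) (b := b) (γ := γ) (w := w) (h := h) hze)).and
    (qtiny (h := h) (R := R) (B := b + 2 * M) hh (by omega) hJ2 hsm hW hE))
  obtain ⟨ν0, hν0⟩ := Filter.eventually_atTop.1 hev
  refine ⟨ν0, fun ν hν q θ z0 za hq1 hqy hq0 hqa => ?_⟩
  obtain ⟨⟨hν1, hν2, hν3⟩, hν4⟩ := hν0 ν hν
  by_contra hcon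
  push Not at hcon
  have hZb1 : 1 ≤ 2 * h * 2 ^ (2 * h + (b + 2 * M)) * 2 ^ (y * (2 * ν + 1)) := by
    have : 0 < 2 * h * 2 ^ (2 * h + (b + 2 * M)) * 2 ^ (y * (2 * ν + 1)) := by positivity
    omega
  have hZb : ∀ (a : Fin A) (j : ℕ), j < M →
      (q : ℚ) * ∑ i ∈ Finset.Icc 1 (2 * h), |Cb (b + 2 * j) i * za a (i + (b + 2 * j))| ≤
      ((2 * h * 2 ^ (2 * h + (b + 2 * M)) * 2 ^ (y * (2 * ν + 1)) : ℕ) : ℚ) := by
    intro a j hj
    rw [Finset.mul_sum]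
    have h1 : ∀ i ∈ Finset.Icc 1 (2 * h), (q : ℚ) * |Cb (b + 2 * j) i * za a (i + (b + 2 * j))| ≤
        2 ^ (2 * h + (b + 2 * M)) * 2 ^ (y * (2 * ν + 1)) := by
      intro i hi
      rw [Finset.mem_Icc] at hi
      obtain ⟨m, hm1, hm2⟩ := hqa a (i + (b + 2 * j)) (by omega) (by omega)
      have h2 : (q : ℚ) * |Cb (b + 2 * j) i * za a (i + (b + 2 * j))| =
          |Cb (b + 2 * j) i| * |(m : ℚ)| := by
        rw [← hm1, abs_mul, abs_mul, Nat.abs_cast]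
        ring
      rw [h2]
      have h3 : |(m : ℚ)| ≤ 2 ^ (y * (2 * ν + 1)) := by exact_mod_cast hm2
      have h4 : |Cb (b + 2 * j) i| ≤ 2 ^ (2 * h + (b + 2 * M)) :=
        (DIFF.Cb_le (β := b + 2 * j) hi.1 hi.2).trans (pow_le_pow_right₀ (by norm_num) (by omega))
      exact mul_le_mul h4 h3 (abs_nonneg _) (by positivity)
    refine (Finset.sum_le_sum h1).trans (le_of_eq ?_)
    rw [Finset.sum_const, Nat.card_Icc, nsmul_eq_mul]
    push_cast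
    ring
  obtain ⟨c, hAS, hcH, hTA, hHom, hnear, hTC, j, hj, l, hl, hne⟩ := dsg (h := h) (ν := ν) t_ji t_jb
    (q := q) z0 za hb hh hZb1 hq1 (fun a j h1 h2 => by
      obtain ⟨m, hm, _⟩ := hqa a j h1 h2
      exact ⟨m, hm⟩) hZb hγw hν2 hν3 hν1
  have hβe : Even (b + 2 * j) := hb.add (even_two_mul j)
  -- the form is a non-zero integer
  obtain ⟨m, hm⟩ := t_int t_ji t_jz t_tay z0 h ν (b + 2 * j) (b + 2 * M) γ l q c hβe (by omega) hl hAS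
    hTC (fun i _ h2 h3 => hq0 i (by omega) (by omega))
  have hm0 : m ≠ 0 := by
    rintro rfl
    rw [Int.cast_zero] at hm
    rcases mul_eq_zero.1 hm with h1 | h1
    · rcases mul_eq_zero.1 h1 with h2 | h2
      · have h3 : q = 0 := by exact_mod_cast h2
        omega
      · have h3 : 0 < DW (2 * ν + 1) (2 * h + 2 * (b + 2 * M)) (2 * γ + 2) := by
          unfold DW
          exact Nat.gcd_pos_of_pos_left _ (Nat.pow_pos (Pool.Agent.W165.OZ.PRaux.Dl_pos _ 1))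
        have h4 : DW (2 * ν + 1) (2 * h + 2 * (b + 2 * M)) (2 * γ + 2) = 0 := by exact_mod_cast h2
        omega
    · exact hne h1
  -- the real form
  have hLR := LR_diff (l := l) (δ := 1 / 2 ^ (E * (2 * ν + 1))) hAS hβe (by positivity) hcH θ z0 za
    (fun i h1 h2 h3 => hcon i h1 (by omega) (by omega))
  have hH0 : ∑ a, θ a * (Hom (za a) h (2 * ν + 1) c (gq (2 * ν + 1) l) (b + 2 * j) : ℝ) = 0 := by
    refine Finset.sum_eq_zero fun a _ => ?_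
    rw [hHom a j hj l hl, Rat.cast_zero, mul_zero]
  rw [hH0, add_zero] at hLR
  have hr4 : 4 ≤ 2 ^ R := by
    calc 4 = 2 ^ 2 := by norm_num
      _ ≤ 2 ^ R := Nat.pow_le_pow_right (by norm_num) hR
  have hlw : l ≤ w * (2 * ν + 1) := hl.trans (Nat.mul_le_mul_right _ hγw)
  have hs := dsml (β := b + 2 * j) (B := b + 2 * M) (by omega) (by omega) hr4 hlw hAS hcH hTA hnear
  have ht := hν4 q hqy (b + 2 * j) (by omega) l hl
  obtain ⟨Λ, hΛ⟩ : ∃ Λ : ℝ, Λ = (Lz z0 h (2 * ν + 1) c (gq (2 * ν + 1) l) (b + 2 * j) : ℝ) := ⟨_, rfl⟩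
  rw [← hΛ] at hLR
  have h1 : (1 : ℝ) ≤ |(m : ℝ)| := by
    have : (1 : ℤ) ≤ |m| := Int.one_le_abs hm0
    exact_mod_cast this
  have h2 : (m : ℝ) = (q : ℝ) * (DW (2 * ν + 1) (2 * h + 2 * (b + 2 * M)) (2 * γ + 2) : ℝ) * Λ := by
    rw [hΛ]
    have h3 : (((q : ℚ) * (DW (2 * ν + 1) (2 * h + 2 * (b + 2 * M)) (2 * γ + 2) : ℚ) *
      Lz z0 h (2 * ν + 1) c (gq (2 * ν + 1) l) (b + 2 * j) : ℚ) : ℝ) = ((m : ℚ) : ℝ) := by rw [hm]
    push_cast at h3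
    rw [← h3]
  have hΛle : |Λ| ≤ |LR h (2 * ν + 1) c (gq (2 * ν + 1) l) (b + 2 * j)| +
      |LR h (2 * ν + 1) c (gq (2 * ν + 1) l) (b + 2 * j) - Λ| := by
    have h3 := abs_sub_abs_le_abs_sub Λ (LR h (2 * ν + 1) c (gq (2 * ν + 1) l) (b + 2 * j))
    rw [abs_sub_comm] at h3
    linarith
  have hΛ2 := hΛle.trans (add_le_add hs hLR)
  rw [h2, abs_mul, abs_of_nonneg (by positivity)] at h1
  have h4 := mul_le_mul_of_nonneg_left hΛ2 (by positivity :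
    (0 : ℝ) ≤ (q : ℝ) * (DW (2 * ν + 1) (2 * h + 2 * (b + 2 * M)) (2 * γ + 2) : ℝ))
  linarith

end

end Pool.Agent.H494.DQ
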