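import Pool.Agent.H494.DQ.QPar
import Pool.Agent.H494.DZ.Fin
import Pool.Graph.R_pool_sql_team_seeded_2aa45f1a.Q29.SpaceSpan

/-!
# The distance to rational subspaces
-/

set_option autoImplicit false

open Pool.Agent.H337R2 Module

namespace Pool.Agent.H494.DQ

open Pool.Agent.H494.DZ

theorem dy_pos (b S : ℕ) : 1 ≤ dy b S := by
  have h1 := dP_pos b S
  have h2 := dR_ge S
  unfold dy
  exact Nat.mul_pos (by norm_num) (Nat.mul_pos h1 (by omega))

/-- the distance, for an even lower bound of the window -/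
theorem dist_even {b S A : ℕ} (hb : Even b) (hb2 : 2 ≤ b) (hS : 1 ≤ S) (hA : A + 1 ≤ S) :
    ∃ c : ℝ, 0 < c ∧ ∀ (q : ℕ) (a : ℕ → ℤ) (B : Fin A → ℕ → ℤ) (θ : Fin A → ℝ) (H : ℝ), 0 < q →
      (q : ℝ) ≤ H → (∀ d j, |(B d j : ℝ)| ≤ H) →
      ∃ j, b < j ∧ j ≤ 2 * dh b S + dB b S ∧ Odd j ∧
        c / H ^ (20 * S) ≤ |zr j - ((a j : ℝ) + ∑ d, θ d * (B d j : ℝ)) / q| := by
  have hP := dP_pos b S
  obtain ⟨ν0, hν0⟩ := qcore (A := A) (M := dM S) (b := b) (γ := dP b S) (w := dw b S) (h := dh b S)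
    (R := dR S) (x := dx b S) (W := dx b S) (y := dy b S) (E := dy b S * (20 * S))
    (J1 := dL S + 11) (J2 := 2 * dL S + 21) hb hb2
    (by
      unfold dh
      exact Nat.mul_pos (by omega) (Nat.mul_pos (by positivity) (by omega)))
    (by
      unfold dM
      omega)
    (by
      have := dR_ge S
      omega)
    (by
      unfold dw
      have : dP b S ≤ S * dP b S := Nat.le_mul_of_pos_left _ hS
      omega)
    (parJ1 b S) (parJ2 hS) (qparK hS hA) (qparS hS).1 (qparW hS) (qparS hS).2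
    (by
      refine lt_of_le_of_lt ?_ (parZ (b := b) hS)
      gcongr)
  obtain ⟨y, hy⟩ : ∃ y, y = dy b S := ⟨_, rfl⟩
  have hy1 : 1 ≤ y := by rw [hy]; exact dy_pos b S
  rw [← hy] at hν0
  obtain ⟨C, hC⟩ : ∃ C : ℝ, C = 2 ^ (y * (2 * ν0 + 1)) * 2 ^ (2 * y) := ⟨_, rfl⟩
  have hC0 : 0 < C := by rw [hC]; positivity
  refine ⟨1 / C ^ (20 * S), by positivity, fun q a B θ H hq hqH hBH => ?_⟩
  have hq1 : (1 : ℝ) ≤ q := by exact_mod_cast hq
  have hH1 : 1 ≤ H := hq1.trans hqH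
  -- the choice of `ν`
  have hex : ∃ ν, ν0 ≤ ν ∧ H ≤ 2 ^ (y * (2 * ν + 1)) := by
    obtain ⟨m, hm⟩ := exists_nat_gt H
    refine ⟨ν0 + m, by omega, hm.le.trans ?_⟩
    have h1 : m < 2 ^ m := Nat.lt_two_pow_self
    have h2 : (2 : ℕ) ^ m ≤ 2 ^ (y * (2 * (ν0 + m) + 1)) := by
      refine Nat.pow_le_pow_right (by norm_num) ?_
      calc m ≤ 1 * (2 * (ν0 + m) + 1) := by omega
        _ ≤ y * (2 * (ν0 + m) + 1) := Nat.mul_le_mul_right _ hy1
    exact_mod_cast h1.le.trans h2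
  obtain ⟨ν, hν1, hν2, hν3⟩ : ∃ ν, ν0 ≤ ν ∧ H ≤ 2 ^ (y * (2 * ν + 1)) ∧
      (2 : ℝ) ^ (y * (2 * ν + 1)) ≤ C * H := by
    classical
    refine ⟨Nat.find hex, (Nat.find_spec hex).1, (Nat.find_spec hex).2, ?_⟩
    by_cases h0 : Nat.find hex = ν0
    · rw [h0]
      have h1 : (1 : ℝ) ≤ 2 ^ (2 * y) := one_le_pow₀ (by norm_num)
      calc (2 : ℝ) ^ (y * (2 * ν0 + 1)) = 2 ^ (y * (2 * ν0 + 1)) * 1 * 1 := by ring
        _ ≤ 2 ^ (y * (2 * ν0 + 1)) * 2 ^ (2 * y) * H := by gcongr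
        _ = C * H := by rw [hC]
    · obtain ⟨μ, hμ⟩ : ∃ μ, Nat.find hex = μ + 1 := ⟨Nat.find hex - 1, by
        have := (Nat.find_spec hex).1
        omega⟩
      have hμ0 : ν0 ≤ μ := by
        have := (Nat.find_spec hex).1
        omega
      have h1 : ¬ (ν0 ≤ μ ∧ H ≤ 2 ^ (y * (2 * μ + 1))) := Nat.find_min hex (by omega)
      have h2 : (2 : ℝ) ^ (y * (2 * μ + 1)) < H := by
        by_contra h3
        exact h1 ⟨hμ0, not_lt.1 h3⟩
      have h4 : (1 : ℝ) ≤ 2 ^ (y * (2 * ν0 + 1)) := one_le_pow₀ (by norm_num)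
      rw [hμ, show y * (2 * (μ + 1) + 1) = y * (2 * μ + 1) + 2 * y by ring, pow_add]
      calc (2 : ℝ) ^ (y * (2 * μ + 1)) * 2 ^ (2 * y) = 1 * 2 ^ (2 * y) * 2 ^ (y * (2 * μ + 1)) := by ring
        _ ≤ 2 ^ (y * (2 * ν0 + 1)) * 2 ^ (2 * y) * H := by gcongr
        _ = C * H := by rw [hC]
  have hq0 : (q : ℚ) ≠ 0 := by
    have : (q : ℕ) ≠ 0 := by omega
    exact_mod_cast this
  obtain ⟨j, hj1, hj2, hj3, hj4⟩ := hν0 ν hν1 q θ (fun j => (a j : ℚ) / q) (fun d j => (B d j : ℚ) / q) hq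
    (by exact_mod_cast hqH.trans hν2)
    (fun j _ _ => ⟨a j, by field_simp⟩)
    (fun d j _ _ => ⟨B d j, by field_simp, by exact_mod_cast (hBH d j).trans hν2⟩)
  refine ⟨j, hj2, hj3, hj1, ?_⟩
  have e1 : zr j - ((((a j : ℚ) / q : ℚ) : ℝ) + ∑ d, θ d * (((B d j : ℚ) / q : ℚ) : ℝ)) =
      zr j - ((a j : ℝ) + ∑ d, θ d * (B d j : ℝ)) / q := by
    push_cast
    rw [add_div, Finset.sum_div]
    congr 2
    exact Finset.sum_congr rfl fun d _ => by rw [mul_div_assoc]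
  rw [e1] at hj4
  refine le_trans ?_ hj4.le
  rw [div_div, ← mul_pow]
  have e2 : (2 : ℝ) ^ (y * (20 * S) * (2 * ν + 1)) = (2 ^ (y * (2 * ν + 1))) ^ (20 * S) := by
    rw [← pow_mul]
    congr 1
    ring
  rw [e2]
  gcongr

/-- the distance, for a general window -/
theorem dist_gen {b S s A : ℕ} (hS : 1 ≤ S) (hs : Win b S s) (hA : A + 1 ≤ S) :
    ∃ c : ℝ, 0 < c ∧ ∀ (q : ℕ) (a : ℕ → ℤ) (B : Fin A → ℕ → ℤ) (θ : Fin A → ℝ) (H : ℝ), 0 < q →
      (q : ℝ) ≤ H → (∀ d j, |(B d j : ℝ)| ≤ H) →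
      ∃ j, b < j ∧ j ≤ s ∧ Odd j ∧
        c / H ^ (20 * S) ≤ |zr j - ((a j : ℝ) + ∑ d, θ d * (B d j : ℝ)) / q| := by
  obtain ⟨b', hb'⟩ : ∃ b', b' = 2 * (b / 2) + 2 := ⟨_, rfl⟩
  have hbe : Even b' := by
    rw [hb']
    exact (even_two_mul _).add even_two
  obtain ⟨c, hc, h⟩ := dist_even hbe (by omega) hS hA
  refine ⟨c, hc, fun q a B θ H hq hqH hBH => ?_⟩
  obtain ⟨j, h2, h3, h4, h5⟩ := h q a B θ H hq hqH hBH
  refine ⟨j, by omega, h3.trans ?_, h4, h5⟩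
  have h6 := win (b := b') hS
  have hB : dB b' S ≤ (2 ^ 18 + 2) * (b + S) := by
    unfold dB dM
    omega
  have hL : 0 < dL S := by
    unfold dL
    omega
  refine Nat.le_of_mul_le_mul_left (h6.trans ?_) hL
  calc (2 ^ 21 + 5) * (S ^ 2 * dB b' S) ≤ (2 ^ 21 + 5) * (S ^ 2 * ((2 ^ 18 + 2) * (b + S))) := by gcongr
    _ = ((2 ^ 21 + 5) * (2 ^ 18 + 2)) * (S ^ 2 * (b + S)) := by ring
    _ ≤ 2 ^ 40 * (S ^ 2 * (b + S)) := by gcongr; norm_num
    _ ≤ s * (Nat.log 2 S + 1) := hs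
    _ = dL S * s := by rw [mul_comm]; rfl

open Pool.Agent.Q29.SpaceRank

/-- **The distance to rational subspaces**, for a window with missing zeta values. -/
theorem space_dist {b S s D K p : ℕ} (hs : Win b S s) (hDK : D + K + 1 ≤ S) (z : Fin p → ℝ)
    (J : Finset ℕ) (hJ : J.card ≤ K) (hz : ∀ j, b < j → j ≤ s → Odd j → j ∉ J → ∃ i, z i = zr j) :
    ∃ c : ℝ, 0 < c ∧ SpaceDist z D (20 * S) c := by
  classical
  have hS : 1 ≤ S := by omega
  obtain ⟨c, hc, h⟩ := dist_gen (A := D + J.card) hS hs (by omega)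
  refine ⟨c, hc, fun q a B θ H hq hqH hBH => ?_⟩
  have e := J.equivFin.symm
  have hH0 : 0 ≤ H := (Nat.cast_nonneg q).trans hqH
  obtain ⟨g, hg⟩ : ∃ g : ℕ → Option (Fin p), ∀ j, (∀ i, g j = some i → z i = zr j) ∧
      (b < j → j ≤ s → Odd j → j ∉ J → ∃ i, g j = some i) := by
    have h1 : ∀ j, ∃ o : Option (Fin p), (∀ i, o = some i → z i = zr j) ∧
        (b < j → j ≤ s → Odd j → j ∉ J → ∃ i, o = some i) := by
      intro j
      by_cases hj : ∃ i, z i = zr j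
      · obtain ⟨i, hi⟩ := hj
        refine ⟨some i, fun i' hi' => ?_, fun _ _ _ _ => ⟨i, rfl⟩⟩
        rw [Option.some.injEq] at hi'
        rw [← hi', hi]
      · exact ⟨none, fun i' hi' => by simp at hi', fun h1 h2 h3 h4 => absurd (hz j h1 h2 h3 h4) hj⟩
    choose g hg using h1
    exact ⟨g, hg⟩
  obtain ⟨j, h1, h2, h3, h4⟩ := h q
    (fun j => if j ∈ J then 0 else (g j).elim 0 a)
    (fun d j => Fin.addCases (fun d' : Fin D => if j ∈ J then 0 else (g j).elim 0 (B d'))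
      (fun k => if (e k : ℕ) = j then (q : ℤ) else 0) d)
    (fun d => Fin.addCases θ (fun k => zr (e k)) d) H hq hqH
    (fun d j => by
      refine Fin.addCases (fun d' => ?_) (fun k => ?_) d
      · rw [Fin.addCases_left]
        split_ifs
        · simpa using hH0
        · cases hgj : g j with
          | none => simpa using hH0
          | some i => exact hBH d' i
      · rw [Fin.addCases_right]
        split_ifs
        · simpa using hqH
        · simpa using hH0)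
  rw [Fin.sum_univ_add] at h4
  simp only [Fin.addCases_left, Fin.addCases_right] at h4
  have hq0 : (q : ℝ) ≠ 0 := by
    have : (q : ℕ) ≠ 0 := by omega
    exact_mod_cast this
  by_cases hj : j ∈ J
  · -- impossible
    exfalso
    simp only [if_pos hj] at h4
    obtain ⟨k, hk⟩ : ∃ k, (e k : ℕ) = j := ⟨e.symm ⟨j, hj⟩, by simp⟩
    have e1 : ∑ x, zr (e x : ℕ) * (((if (e x : ℕ) = j then (q : ℤ) else 0 : ℤ)) : ℝ) = zr j * q := by
      rw [Finset.sum_eq_single k (fun x _ hx => by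
        rw [if_neg (fun h => hx (by
          have : (e x : ℕ) = (e k : ℕ) := by rw [h, hk]
          exact e.injective (Subtype.ext this)))]
        simp) (fun h => absurd (Finset.mem_univ _) h), if_pos hk, hk]
      simp
    rw [e1] at h4
    simp only [Int.cast_zero, mul_zero, Finset.sum_const_zero, zero_add] at h4
    rw [mul_div_assoc, div_self hq0, mul_one, sub_self, abs_zero] at h4
    have hH1 : 0 < H := lt_of_lt_of_le (by exact_mod_cast hq) hqH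
    have : 0 < c / H ^ (20 * S) := by positivity
    linarith
  · obtain ⟨i, hi⟩ := (hg j).2 h1 h2 h3 hj
    have hzi := (hg j).1 i hi
    refine ⟨i, h4.trans (le_of_eq ?_)⟩
    simp only [if_neg hj, hi, Option.elim_some]
    have e1 : ∑ x, zr (e x : ℕ) * (((if (e x : ℕ) = j then (q : ℤ) else 0 : ℤ)) : ℝ) = 0 := by
      refine Finset.sum_eq_zero fun x _ => ?_
      rw [if_neg (fun h => hj (by rw [← h]; exact (e x).2))]
      simp
    rw [e1, add_zero, hzi]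

end Pool.Agent.H494.DQ
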