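import Pool.Agent.H494.DQ.QCore
import Pool.Agent.H494.DZ.Par

/-!
# The parameters of the quantitative form
-/

set_option autoImplicit false

namespace Pool.Agent.H494.DQ

open Pool.Agent.H494.DZ

/-- the logarithm of the height -/
def dy (b S : ℕ) : ℕ := 2 ^ 5 * (dP b S * dR S)

theorem qparW {b S : ℕ} (hS : 1 ≤ S) :
    (2 * dP b S + 4 * (2 * dL S + 21) * (2 * dP b S + 2) + 1) + dy b S +
      (dP b S + 1) * (2 * dR S + 6) + 1 ≤ dx b S := by
  have h1 := dP_pos b S
  have h2 := dL_le_dR S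
  have h3 := dR_ge S
  obtain ⟨Q, hQ⟩ : ∃ Q, Q = dP b S * dR S := ⟨_, rfl⟩
  have hx : dx b S = 2 ^ 9 * (S * Q) := by
    rw [hQ]
    unfold dx dw
    ring
  have hy : dy b S = 2 ^ 5 * Q := by rw [hQ]; rfl
  have h4 : Q ≤ S * Q := Nat.le_mul_of_pos_left _ hS
  have h5 : 8 * dP b S ≤ Q := by
    rw [hQ, mul_comm]
    exact Nat.mul_le_mul_left _ h3
  have h6 : 4 * (2 * dL S + 21) * (2 * dP b S + 2) ≤ 64 * Q := by
    calc 4 * (2 * dL S + 21) * (2 * dP b S + 2) ≤ 4 * (4 * dR S) * (4 * dP b S) := by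
          gcongr
          · omega
          · omega
      _ = 64 * Q := by rw [hQ]; ring
  have h7 : (dP b S + 1) * (2 * dR S + 6) ≤ 6 * Q := by
    calc (dP b S + 1) * (2 * dR S + 6) ≤ (2 * dP b S) * (3 * dR S) := by
          gcongr
          · omega
          · omega
      _ = 6 * Q := by rw [hQ]; ring
  rw [hx, hy]
  omega

theorem qparS {b S : ℕ} (hS : 1 ≤ S) :
    dx b S + (2 * dP b S + 4 * (2 * dL S + 21) * (2 * dP b S + 2) + 1) + dy b S +
      3 * (dP b S + 1) + 1 ≤ 2 * (dw b S - dP b S) * (dR S - 1) ∧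
    dx b S + (2 * dP b S + 4 * (2 * dL S + 21) * (2 * dP b S + 2) + 1) + dy b S +
      3 * (dP b S + 1) + 1 ≤ dy b S * (20 * S) := by
  have h1 := dP_pos b S
  have h2 := dL_le_dR S
  have h3 := dR_ge S
  obtain ⟨Q, hQ⟩ : ∃ Q, Q = dP b S * dR S := ⟨_, rfl⟩
  have hx : dx b S = 2 ^ 9 * (S * Q) := by
    rw [hQ]
    unfold dx dw
    ring
  have hy : dy b S = 2 ^ 5 * Q := by rw [hQ]; rfl
  have h4 : Q ≤ S * Q := Nat.le_mul_of_pos_left _ hS
  have h5 : 8 * dP b S ≤ Q := by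
    rw [hQ, mul_comm]
    exact Nat.mul_le_mul_left _ h3
  have h6 : 4 * (2 * dL S + 21) * (2 * dP b S + 2) ≤ 64 * Q := by
    calc 4 * (2 * dL S + 21) * (2 * dP b S + 2) ≤ 4 * (4 * dR S) * (4 * dP b S) := by
          gcongr
          · omega
          · omega
      _ = 64 * Q := by rw [hQ]; ring
  -- the right-hand side
  have h7 : 511 * (S * dP b S) ≤ dw b S - dP b S := by
    have : dP b S ≤ S * dP b S := Nat.le_mul_of_pos_left _ hS
    unfold dw
    omega
  have h8 : 7 * dR S ≤ 8 * (dR S - 1) := by omega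
  have h9 : 7 * (2 * 511 * (S * Q)) ≤ 8 * (2 * (dw b S - dP b S) * (dR S - 1)) := by
    calc 7 * (2 * 511 * (S * Q)) = 2 * (511 * (S * dP b S)) * (7 * dR S) := by rw [hQ]; ring
      _ ≤ 2 * (dw b S - dP b S) * (8 * (dR S - 1)) := by gcongr
      _ = _ := by ring
  have h10 : dy b S * (20 * S) = 640 * (S * Q) := by
    rw [hy]
    ring
  rw [h10, hx, hy]
  constructor
  · omega
  · omega

theorem qparK {A b S : ℕ} (hS : 1 ≤ S) (hA : A + 1 ≤ S) :
    (dw b S + 1) * (5 * dw b S + 8 * (dL S + 11) * (dw b S + 1) + 5) +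
      A * dM S * ((dP b S + 1) * (5 * dP b S + 8 * (2 * dL S + 21) * (dP b S + 1) + 5 + dy b S)) +
      2 ^ dR S * (b + 2 * dM S) * (dx b S + dx b S + 1) +
      4 * (b + 2 * dM S) * (2 * dh b S + (b + 2 * dM S)) ≤ dx b S * (dM S * dP b S) := by
  have h1 := dP_pos b S
  have h2 := dL_le_dR S
  have h3 := dR_ge S
  have hB : b + 2 * dM S = dB b S := rfl
  rw [hB]
  have hBQ := dB_le b S
  have hR9 := dR_le hS
  have hSS : S ≤ S ^ 2 := by nlinarith
  obtain ⟨U, hU⟩ : ∃ U, U = S ^ 2 * dP b S ^ 2 * dR S := ⟨_, rfl⟩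
  have hSP : 1 ≤ S * dP b S := Nat.mul_pos hS h1
  have hRHS : dx b S * (dM S * dP b S) = 2 ^ 26 * U := by
    rw [hU]
    unfold dx dM dw
    ring
  have hx1 : 1 ≤ dx b S := by
    unfold dx dw
    exact Nat.mul_pos (by omega) (by omega)
  have t1 : (dw b S + 1) * (5 * dw b S + 8 * (dL S + 11) * (dw b S + 1) + 5) ≤ 2 ^ 23 * U := by
    have e1 : (dw b S + 1) * (5 * dw b S + 8 * (dL S + 11) * (dw b S + 1) + 5) =
        (dw b S + 1) ^ 2 * (5 + 8 * (dL S + 11)) := by ring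
    have e2 : (dw b S + 1) ^ 2 ≤ 2 * dw b S ^ 2 := by
      have : 3 ≤ dw b S := by
        unfold dw
        omega
      nlinarith
    rw [e1]
    calc (dw b S + 1) ^ 2 * (5 + 8 * (dL S + 11)) ≤ (2 * dw b S ^ 2) * (16 * dR S) := by
          gcongr
          omega
      _ = 2 ^ 23 * U := by
          rw [hU]
          unfold dw
          ring
  have t2 : A * dM S * ((dP b S + 1) * (5 * dP b S + 8 * (2 * dL S + 21) * (dP b S + 1) + 5 +
      dy b S)) ≤ (2 ^ 24 + 2 ^ 23) * U := by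
    have e1 : (dP b S + 1) * (5 * dP b S + 8 * (2 * dL S + 21) * (dP b S + 1) + 5 + dy b S) =
        (dP b S + 1) ^ 2 * (5 + 8 * (2 * dL S + 21)) + (dP b S + 1) * dy b S := by ring
    rw [e1]
    calc A * dM S * ((dP b S + 1) ^ 2 * (5 + 8 * (2 * dL S + 21)) + (dP b S + 1) * dy b S)
        ≤ S * dM S * ((2 * dP b S) ^ 2 * (32 * dR S) + (2 * dP b S) * dy b S) := by
          gcongr
          · omega
          · omega
          · omega
          · omega
      _ = (2 ^ 24 + 2 ^ 23) * U := by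
          rw [hU]
          unfold dM dy
          ring
  have t3 : 2 ^ dR S * dB b S * (dx b S + dx b S + 1) ≤ 3 * 2 ^ 21 * U := by
    calc 2 ^ dR S * dB b S * (dx b S + dx b S + 1)
        ≤ 2 ^ dR S * (dP b S * dR S) * (3 * dx b S) := by
          gcongr
          omega
      _ = (2 ^ dR S * dR S) * (3 * (dP b S * dx b S)) := by ring
      _ ≤ (2 ^ 12 * S) * (3 * (dP b S * dx b S)) := Nat.mul_le_mul_right _ (pow_dR_le hS)
      _ = 3 * 2 ^ 21 * U := by
          rw [hU]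
          unfold dx dw
          ring
  have t4 : 4 * dB b S * (2 * dh b S + dB b S) ≤ 2 ^ 23 * U := by
    calc 4 * dB b S * (2 * dh b S + dB b S)
        ≤ 4 * (dP b S * dR S) * (2 * dh b S + dP b S * (9 * S ^ 2)) := by
          gcongr
          refine hBQ.trans ?_
          gcongr
          exact hR9.trans (Nat.mul_le_mul_left _ hSS)
      _ = 4 * (2 ^ 20 + 9) * U := by
          rw [hU]
          unfold dh
          ring
      _ ≤ 2 ^ 23 * U := by gcongr; norm_num
  rw [hRHS]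
  omega

end Pool.Agent.H494.DQ
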