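import Pool.Agent.H494.DQ.QFin

/-!
# Polynomials with very small values
-/

set_option autoImplicit false

open Pool.Agent.H337R2 Module

namespace Pool.Agent.H494.DQ

open Pool.Agent.H494.DZ Pool.Agent.Q29.SpaceRank

/-- the parameter `S` for all odd zeta values up to `s` -/
theorem exists_S (s : ℕ) (hs : 2 ^ 48 ≤ s) :
    ∃ S : ℕ, 1 ≤ S ∧ 1 / 2 ^ 16 * ((s : ℝ) * Real.log s) ^ ((1 : ℝ) / 3) ≤ (S : ℝ) + 1 ∧ Win 2 S s := by
  have hs48 : (2 : ℝ) ^ 48 ≤ s := by exact_mod_cast hs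
  have hs3 : (3 : ℝ) ≤ s := le_trans (by norm_num) hs48
  have hlog : 1 ≤ Real.log s := by
    rw [Real.le_log_iff_exp_le (by linarith)]
    have := Real.exp_one_lt_d9
    linarith
  obtain ⟨X, hX⟩ : ∃ X : ℝ, X = 1 / 2 ^ 16 * ((s : ℝ) * Real.log s) ^ ((1 : ℝ) / 3) := ⟨_, rfl⟩
  have hX0 : 0 ≤ X := by
    rw [hX]
    positivity
  have hX3 : X ^ 3 = 1 / 2 ^ 48 * ((s : ℝ) * Real.log s) := by
    rw [hX, mul_pow, ← Real.rpow_natCast (((s : ℝ) * Real.log s) ^ ((1 : ℝ) / 3)) 3,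
      ← Real.rpow_mul (by positivity)]
    norm_num
  have hX1 : 1 ≤ X := by
    by_contra hlt
    push Not at hlt
    have h1 : X ^ 3 < 1 := pow_lt_one₀ hX0 hlt (by norm_num)
    rw [hX3] at h1
    have h2 : (2 : ℝ) ^ 48 * 1 ≤ s * Real.log s := by gcongr
    have h3 : (1 : ℝ) / 2 ^ 48 * (2 ^ 48 * 1) ≤ 1 / 2 ^ 48 * (s * Real.log s) := by gcongr
    norm_num at h3 h1
    linarith
  rw [← hX]
  obtain ⟨S, hS⟩ : ∃ S, S = ⌊X⌋₊ := ⟨_, rfl⟩
  have hSX : (S : ℝ) ≤ X := by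
    rw [hS]
    exact Nat.floor_le hX0
  have hXS : X < (S : ℝ) + 1 := by
    rw [hS]
    exact Nat.lt_floor_add_one X
  have h0 : 1 ≤ S := by
    rw [hS]
    exact (Nat.one_le_floor_iff X).2 hX1
  refine ⟨S, h0, hXS.le, ?_⟩
  unfold Win
  obtain ⟨L, hL⟩ : ∃ L, L = Nat.log 2 S + 1 := ⟨_, rfl⟩
  rw [← hL]
  have hL1 : 1 ≤ L := by omega
  have h2 : S < 2 ^ L := by
    rw [hL]
    exact Nat.lt_pow_succ_log_self (by norm_num) S
  have h3 : X < 2 ^ L := by
    refine lt_of_lt_of_le hXS ?_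
    exact_mod_cast (Nat.succ_le_of_lt h2)
  -- the logarithm of `s`
  have h4 : (s : ℝ) < 2 ^ (3 * L + 48) := by
    have h5 : X ^ 3 < (2 ^ L) ^ 3 := pow_lt_pow_left₀ h3 hX0 (by norm_num)
    rw [hX3] at h5
    have h6 : (s : ℝ) ≤ s * Real.log s := le_mul_of_one_le_right (by linarith) hlog
    have h7 : (2 : ℝ) ^ (3 * L + 48) = 2 ^ 48 * (2 ^ L) ^ 3 := by
      rw [pow_add, mul_comm 3 L, pow_mul]
      ring
    rw [h7]
    calc (s : ℝ) ≤ s * Real.log s := h6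
      _ = 2 ^ 48 * (1 / 2 ^ 48 * ((s : ℝ) * Real.log s)) := by ring
      _ < 2 ^ 48 * (2 ^ L) ^ 3 := mul_lt_mul_of_pos_left h5 (by positivity)
  have h5 : Real.log s ≤ 51 * L := by
    have h6 : Real.log s ≤ Real.log (2 ^ (3 * L + 48)) :=
      Real.log_le_log (by linarith) h4.le
    rw [Real.log_pow] at h6
    have h7 : Real.log 2 ≤ 1 := by
      have := Real.log_two_lt_d9
      linarith
    have h8 : ((3 * L + 48 : ℕ) : ℝ) ≤ 51 * L := by
      have : 3 * L + 48 ≤ 51 * L := by omega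
      exact_mod_cast this
    have h9 : (0 : ℝ) ≤ ((3 * L + 48 : ℕ) : ℝ) := by positivity
    calc Real.log s ≤ ((3 * L + 48 : ℕ) : ℝ) * Real.log 2 := h6
      _ ≤ ((3 * L + 48 : ℕ) : ℝ) * 1 := mul_le_mul_of_nonneg_left h7 h9
      _ ≤ 51 * L := by rw [mul_one]; exact h8
  have h6 : (2 : ℝ) ^ 40 * ((S : ℝ) ^ 2 * (2 + S)) ≤ s * L := by
    have hS1 : (1 : ℝ) ≤ S := by exact_mod_cast h0
    have h7 : (S : ℝ) ^ 2 * (2 + S) ≤ 3 * X ^ 3 := by
      calc (S : ℝ) ^ 2 * (2 + S) ≤ (S : ℝ) ^ 2 * (3 * S) := by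
            gcongr
            linarith
        _ = 3 * (S : ℝ) ^ 3 := by ring
        _ ≤ 3 * X ^ 3 := by gcongr
    rw [hX3] at h7
    calc (2 : ℝ) ^ 40 * ((S : ℝ) ^ 2 * (2 + S))
        ≤ 2 ^ 40 * (3 * (1 / 2 ^ 48 * ((s : ℝ) * Real.log s))) := by gcongr
      _ ≤ 2 ^ 40 * (3 * (1 / 2 ^ 48 * ((s : ℝ) * (51 * L)))) := by gcongr
      _ = (153 / 256) * (s * L) := by ring
      _ ≤ 1 * (s * L) := by
          gcongr
          norm_num
      _ = s * L := one_mul _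
  exact_mod_cast h6

/-- the polynomials supported on `M` with integer coefficients of absolute value at most `X` and a value
smaller than `δ` at `x` -/
def NearPoly (M : Finset (ℕ →₀ ℕ)) (x : ℕ → ℝ) (X δ : ℝ) : Set (MvPolynomial ℕ ℚ) :=
  {P | P.support ⊆ M ∧ (∀ m, ∃ n : ℤ, P.coeff m = n ∧ |(n : ℝ)| ≤ X) ∧ |MvPolynomial.aeval x P| < δ}

/-- **Polynomials with very small values.** -/
theorem near_poly {S s : ℕ} (hS : 1 ≤ S) (hs : Win 2 S s) (M : Finset (ℕ →₀ ℕ)) (h0 : 0 ∈ M)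
    (hM : ∀ k, 1 ≤ k → 2 * k + 1 ≤ s → Finsupp.single k 1 ∈ M) :
    ∃ c : ℝ, 0 < c ∧ ∀ x : ℕ → ℝ, (∀ k, 1 ≤ k → 2 * k + 1 ≤ s → x k = zr (2 * k + 1)) →
      ∀ X : ℝ, 1 ≤ X →
        finrank ℚ (Submodule.span ℚ (NearPoly M x X (c / X ^ (20 * M.card ^ 2)))) + (S + 1) ≤ M.card := by
  classical
  obtain ⟨p, hp⟩ : ∃ p, p = (s - 1) / 2 := ⟨_, rfl⟩
  obtain ⟨mz, hmz⟩ : ∃ mz : Fin p → (ℕ →₀ ℕ), mz = fun (i : Fin p) => Finsupp.single ((i : ℕ) + 1) 1 := ⟨_, rfl⟩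
  obtain ⟨m1, hm1⟩ : ∃ m1 : Fin (p + 1) → (ℕ →₀ ℕ), m1 = Fin.cons 0 mz := ⟨_, rfl⟩
  have hmz_inj : Function.Injective mz := by
    intro i i' h
    rw [hmz] at h
    have h1 := Finsupp.single_left_injective (b := 1) one_ne_zero h
    exact Fin.ext (by simpa using h1)
  have hm1_inj : Function.Injective m1 := by
    rw [hm1]
    refine Fin.cons_injective_iff.2 ⟨?_, hmz_inj⟩
    rintro ⟨i, hi⟩
    rw [hmz] at hi
    have h1 := DFunLike.congr_fun hi ((i : ℕ) + 1)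
    simp at h1
  have hm1M : ∀ i, m1 i ∈ M := by
    intro i
    rw [hm1]
    refine Fin.cases h0 (fun i => ?_) i
    rw [Fin.cons_succ, hmz]
    have := i.2
    exact hM _ (by omega) (by omega)
  obtain ⟨N, hN⟩ : ∃ N : Finset (ℕ →₀ ℕ), N = M \ (Finset.univ.image m1) := ⟨_, rfl⟩
  have hNc : N.card + (p + 1) = M.card := by
    have h1 : Finset.univ.image m1 ⊆ M := by
      intro m hm
      obtain ⟨i, -, rfl⟩ := Finset.mem_image.1 hm
      exact hm1M i
    have h2 := Finset.card_sdiff_add_card_eq_card h1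
    rw [Finset.card_image_of_injective _ hm1_inj, Finset.card_univ, Fintype.card_fin] at h2
    rw [hN]
    exact h2
  obtain ⟨r, hr⟩ : ∃ r, r = N.card := ⟨_, rfl⟩
  rw [← hr] at hNc
  obtain ⟨e, he⟩ : ∃ e : Fin r ≃ N, e = (N.equivFinOfCardEq hr.symm).symm := ⟨_, rfl⟩
  -- the distance
  obtain ⟨z, hz⟩ : ∃ z : Fin p → ℝ, z = fun (i : Fin p) => zr (2 * ((i : ℕ) + 1) + 1) := ⟨_, rfl⟩
  obtain ⟨c0, hc0, hc⟩ := space_dist (b := 2) (S := S) (s := s) (D := S - 1) (K := 0) hs (by omega) z ∅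
    (by simp) (fun j h1 h2 h3 _ => by
      obtain ⟨k, hk⟩ := h3
      refine ⟨⟨k - 1, by omega⟩, ?_⟩
      rw [hz]
      show zr (2 * (k - 1 + 1) + 1) = zr j
      congr 1
      omega)
  obtain ⟨hD, c', hc', h⟩ := near_rank z (S - 1) (20 * S) c0 hc0 hc r
  refine ⟨c', hc', fun x hx X hX => ?_⟩
  obtain ⟨t, ht⟩ : ∃ t : Fin r → ℝ, t = fun j => MvPolynomial.aeval x (MvPolynomial.monomial (e j : ℕ →₀ ℕ) (1 : ℚ)) :=
    ⟨_, rfl⟩
  obtain ⟨m, hm⟩ : ∃ m, m + (S - 1) = r + p := ⟨r + p - (S - 1), by omega⟩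
  have h2 := (h t X hX).2 m hm
  obtain ⟨W, hW⟩ : ∃ W, W = Submodule.span ℚ ((fun (v : (Fin (p + 1) → ℤ) × (Fin r → ℤ)) =>
          (((fun i => (v.1 i : ℚ)), (fun j => (v.2 j : ℚ))) : (Fin (p + 1) → ℚ) × (Fin r → ℚ))) ''
            {v | ‖v‖ ≤ X ∧ |val z t v| < c' / X ^ ((20 * S + 1) * m)}) := ⟨_, rfl⟩
  rw [← hW] at h2
  -- the map of the coefficients
  obtain ⟨Φ, hΦ⟩ : ∃ Φ : MvPolynomial ℕ ℚ →ₗ[ℚ] (Fin (p + 1) → ℚ) × (Fin r → ℚ),
      ∀ P, Φ P = ((fun i => P.coeff (m1 i)), (fun j => P.coeff (e j : ℕ →₀ ℕ))) :=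
    ⟨{ toFun := fun P => ((fun i => P.coeff (m1 i)), (fun j => P.coeff (e j : ℕ →₀ ℕ)))
       map_add' := fun P Q => by ext <;> simp
       map_smul' := fun a P => by ext <;> simp }, fun P => rfl⟩
  have hcov : ∀ P : MvPolynomial ℕ ℚ, P.support ⊆ M → Φ P = 0 → P = 0 := by
    intro P hP hP0
    rw [hΦ, Prod.ext_iff] at hP0
    ext m'
    rw [MvPolynomial.coeff_zero]
    by_cases h1 : m' ∈ M
    · by_cases h3 : m' ∈ Finset.univ.image m1
      · obtain ⟨i, -, rfl⟩ := Finset.mem_image.1 h3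
        exact congrFun hP0.1 i
      · have h4 : m' ∈ N := by
          rw [hN]
          exact Finset.mem_sdiff.2 ⟨h1, h3⟩
        have h5 := congrFun hP0.2 (e.symm ⟨m', h4⟩)
        simpa using h5
    · by_contra h3
      exact h1 (hP (MvPolynomial.mem_support_iff.2 h3))
  -- the value
  have hval : ∀ P : MvPolynomial ℕ ℚ, P.support ⊆ M → ∀ v : (Fin (p + 1) → ℤ) × (Fin r → ℤ),
      Φ P = ((fun i => (v.1 i : ℚ)), (fun j => (v.2 j : ℚ))) → MvPolynomial.aeval x P = val z t v := by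
    intro P hP v hv
    rw [hΦ, Prod.ext_iff] at hv
    have hv1 : ∀ i, P.coeff (m1 i) = (v.1 i : ℚ) := fun i => congrFun hv.1 i
    have hv2 : ∀ j, P.coeff (e j : ℕ →₀ ℕ) = (v.2 j : ℚ) := fun j => congrFun hv.2 j
    have h1 : MvPolynomial.aeval x P = ∑ m' ∈ M, ((P.coeff m' : ℚ) : ℝ) *
        MvPolynomial.aeval x (MvPolynomial.monomial m' (1 : ℚ)) := by
      conv_lhs => rw [P.as_sum, map_sum]
      rw [Finset.sum_subset hP (fun m' _ hm' => by
        rw [MvPolynomial.notMem_support_iff.1 hm']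
        simp)]
      refine Finset.sum_congr rfl fun m' _ => ?_
      rw [MvPolynomial.aeval_monomial, MvPolynomial.aeval_monomial, map_one, one_mul]
      rfl
    have hsub : Finset.univ.image m1 ⊆ M := by
      intro m hm
      obtain ⟨i, -, rfl⟩ := Finset.mem_image.1 hm
      exact hm1M i
    rw [h1, ← Finset.sum_sdiff hsub, ← hN, Finset.sum_image (fun i _ i' _ h => hm1_inj h),
      ← Finset.sum_coe_sort N, ← Equiv.sum_comp e, Fin.sum_univ_succ]
    unfold val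
    rw [add_comm]
    have e0 : m1 0 = 0 := by rw [hm1]; rfl
    have e1 : ∀ i : Fin p, MvPolynomial.aeval x (MvPolynomial.monomial (m1 i.succ) (1 : ℚ)) = z i := by
      intro i
      rw [hm1, Fin.cons_succ, hmz, MvPolynomial.aeval_monomial, map_one, one_mul,
        Finsupp.prod_single_index (by simp), pow_one, hz]
      have := i.2
      exact hx _ (by omega) (by omega)
    simp only [hv1, hv2, e1, ht]
    rw [e0]
    simp
  -- the comparison of the dimensions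
  have hle : finrank ℚ (Submodule.span ℚ (NearPoly M x X (c' / X ^ (20 * M.card ^ 2)))) ≤ finrank ℚ W := by
    obtain ⟨U, hU⟩ : ∃ U, U = Submodule.span ℚ (NearPoly M x X (c' / X ^ (20 * M.card ^ 2))) := ⟨_, rfl⟩
    rw [← hU]
    have hUM : ∀ P ∈ U, P.support ⊆ M := by
      have h1 : U ≤ MvPolynomial.restrictSupport ℚ (M : Set (ℕ →₀ ℕ)) := by
        rw [hU, Submodule.span_le]
        intro P hP
        show P ∈ MvPolynomial.restrictSupport ℚ (M : Set (ℕ →₀ ℕ))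
        rw [MvPolynomial.mem_restrictSupport_iff]
        exact_mod_cast hP.1
      intro P hP
      have h3 := h1 hP
      rw [MvPolynomial.mem_restrictSupport_iff] at h3
      exact_mod_cast h3
    have hinj : Function.Injective (Φ.domRestrict U) := by
      rw [← LinearMap.ker_eq_bot, LinearMap.ker_eq_bot']
      rintro ⟨P, hP⟩ hP0
      exact Subtype.ext (hcov P (hUM P hP) hP0)
    rw [← LinearMap.finrank_range_of_inj hinj]
    have hfd : FiniteDimensional ℚ W := inferInstance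
    refine Submodule.finrank_mono ?_
    rw [LinearMap.range_domRestrict, hU, Submodule.map_span, Submodule.span_le]
    rintro _ ⟨P, ⟨hP1, hP2, hP3⟩, rfl⟩
    rw [hW]
    choose n hn using hP2
    obtain ⟨v, hv⟩ : ∃ v : (Fin (p + 1) → ℤ) × (Fin r → ℤ),
      v = ((fun i => n (m1 i)), (fun j => n (e j : ℕ →₀ ℕ))) := ⟨_, rfl⟩
    have hPv : Φ P = ((fun i => (v.1 i : ℚ)), (fun j => (v.2 j : ℚ))) := by
      rw [hΦ, hv]
      refine Prod.ext ?_ ?_
      · funext i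
        exact (hn _).1
      · funext j
        exact (hn _).1
    refine Submodule.subset_span ⟨v, ⟨?_, ?_⟩, hPv.symm⟩
    · have hX0 : 0 ≤ X := by linarith
      rw [hv, Prod.norm_def]
      refine max_le ?_ ?_
      · rw [pi_norm_le_iff_of_nonneg hX0]
        intro i
        exact (hn _).2
      · rw [pi_norm_le_iff_of_nonneg hX0]
        intro j
        exact (hn _).2
    · rw [← hval P hP1 v hPv]
      refine hP3.trans_le ?_
      have hmM : (20 * S + 1) * m ≤ 20 * M.card ^ 2 := by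
        have h3 : 20 * S + 1 ≤ 20 * M.card := by omega
        have h4 : m ≤ M.card := by omega
        calc (20 * S + 1) * m ≤ (20 * M.card) * M.card := Nat.mul_le_mul h3 h4
          _ = _ := by ring
      have hX0 : 0 < X := by linarith
      exact div_le_div_of_nonneg_left hc'.le (by positivity) (pow_le_pow_right₀ hX hmM)
  omega

end Pool.Agent.H494.DQ
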